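import Pool.Agent.Helper92.FR.GoalsB

/-!
# FR-NIN: from the instance to the normalised instance

Proof of `Pool.Agent.Helper92.FR.NinStmt`.
-/

namespace Pool.Agent.Helper13.FR

open MeasureTheory Pool.Agent.Helper81.CC Pool.Agent.Bin Pool.Agent.Helper92.VP
open Pool.Agent.Helper92.FR

/-! ### Values -/

theorem bn_eq_zero (n : BN) : n = ⟨0⟩ ↔ n.val = 0 := by
  constructor
  · intro h
    rw [h]
  · intro h
    exact BN.ext h

theorem val_ofRQ (q : RQ) : Qn.val (ofRQ q) = RQ.val q := by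
  unfold ofRQ
  split_ifs with h1 h2
  · rw [Qn.val_zero]
    simp [RQ.val, h1]
  · have h3 : q.2.2.val ≠ 0 := fun h => h1 ((bn_eq_zero _).mpr h)
    have h4 : ((q.2.2.val - 1 : ℕ) : ℝ) + 1 = q.2.2.val := by
      have : q.2.2.val - 1 + 1 = q.2.2.val := by omega
      exact_mod_cast this
    simp only [Qn.val, RQ.val, BN.val_sub, h2, if_true]
    rw [h4]
    push_cast
    ring
  · have h3 : q.2.2.val ≠ 0 := fun h => h1 ((bn_eq_zero _).mpr h)
    have h4 : ((q.2.2.val - 1 : ℕ) : ℝ) + 1 = q.2.2.val := by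
      have : q.2.2.val - 1 + 1 = q.2.2.val := by omega
      exact_mod_cast this
    simp only [Qn.val, RQ.val, BN.val_sub, h2]
    rw [h4]
    simp

theorem val_dflt : RQ.val (false, ⟨0⟩, ⟨1⟩) = 0 := by
  simp [RQ.val]

theorem qnz_iff (x : Qn) : qnz x = true ↔ Qn.val x ≠ 0 := by
  unfold qnz
  rw [decide_eq_true_iff]
  refine not_congr ?_
  unfold Qn.val
  rw [div_eq_zero_iff]
  have h1 := Qn.den_pos x
  constructor
  · intro h
    left
    rw [h, sub_self]
  · rintro (h | h)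
    · rw [sub_eq_zero] at h
      exact BN.ext (by exact_mod_cast h)
    · exact absurd h h1.ne'

theorem sum_map_range (n : ℕ) (f : ℕ → ℝ) :
    ((List.range n).map f).sum = ∑ j : Fin n, f j := by
  rw [Fin.sum_univ_eq_sum_range f n]
  induction n with
  | zero => simp
  | succ n ih =>
    rw [List.range_succ, List.map_append, List.sum_append, ih, Finset.sum_range_succ]
    simp

theorem getD_map_range {α : Type} (n : ℕ) (f : ℕ → α) (d : α) {j : ℕ} (hj : j < n) :
    ((List.range n).map f).getD j d = f j := by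
  rw [List.getD_eq_getElem _ _ (by simpa using hj)]
  simp

theorem getD_map_lt {α β : Type} (l : List α) (f : α → β) (d : β) (d' : α) {j : ℕ}
    (hj : j < l.length) : (l.map f).getD j d = f (l.getD j d') := by
  rw [List.getD_eq_getElem _ _ (by simpa using hj), List.getD_eq_getElem _ _ hj]
  simp

/-- The width of the variable `j`. -/
noncomputable def ww (I : Inst) (j : ℕ) : ℝ := Qn.val ((wids I).getD j Qn.zero)

/-- The lower bound of the variable `j`. -/
noncomputable def ll (I : Inst) (j : ℕ) : ℝ :=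
  (I.1.getD j ((false, ⟨0⟩, ⟨1⟩), (false, ⟨0⟩, ⟨1⟩))).1.val

/-- The upper bound of the variable `j`. -/
noncomputable def uu' (I : Inst) (j : ℕ) : ℝ :=
  (I.1.getD j ((false, ⟨0⟩, ⟨1⟩), (false, ⟨0⟩, ⟨1⟩))).2.val

theorem ww_eq (I : Inst) {j : ℕ} (hj : j < I.1.length) : ww I j = uu' I j - ll I j := by
  unfold ww wids uu' ll
  rw [getD_map_lt I.1 _ _ ((false, ⟨0⟩, ⟨1⟩), (false, ⟨0⟩, ⟨1⟩)) hj, Qn.val_sub, val_ofRQ,
    val_ofRQ]

theorem lo_eq (I : Inst) (j : Fin (dim I)) : lo I j = ll I j := by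
  unfold lo ll
  rw [List.getD_eq_getElem _ _ j.2]
  rfl

theorem up_eq (I : Inst) (j : Fin (dim I)) : up I j = uu' I j := by
  unfold up uu'
  rw [List.getD_eq_getElem _ _ j.2]
  rfl

theorem prod_wids (I : Inst) : Qn.val (Qn.prod (wids I)) = ∏ j : Fin (dim I), ww I j := by
  rw [Qn.val_prod]
  unfold wids
  rw [List.map_map, ← Fin.prod_univ_fun_getElem]
  refine Finset.prod_congr rfl fun j _ => ?_
  rw [ww_eq I j.2]
  simp only [Function.comp, Qn.val_sub, val_ofRQ]
  unfold uu' ll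
  rw [List.getD_eq_getElem _ _ j.2]

theorem rcoef_getD (I : Inst) (r : List RQ × RQ) {j : ℕ} (hj : j < I.1.length) :
    Qn.val ((rcoef I r).getD j Qn.zero) = coef r j * ww I j := by
  unfold rcoef
  rw [getD_map_range _ _ _ hj, Qn.val_mul, val_ofRQ]
  rfl

theorem any_iff (I : Inst) (r : List RQ × RQ) :
    (rcoef I r).any qnz = true ↔ ∃ j : Fin (dim I), coef r j * ww I j ≠ 0 := by
  unfold rcoef
  rw [List.any_map, List.any_eq_true]
  constructor
  · rintro ⟨j, hj, h⟩
    rw [List.mem_range] at hj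
    refine ⟨⟨j, hj⟩, ?_⟩
    rw [Function.comp, qnz_iff, Qn.val_mul, val_ofRQ] at h
    exact h
  · rintro ⟨j, h⟩
    refine ⟨j, List.mem_range.mpr j.2, ?_⟩
    rw [Function.comp, qnz_iff, Qn.val_mul, val_ofRQ]
    exact h

theorem rrhs_val (I : Inst) (r : List RQ × RQ) :
    Qn.val (rrhs I r) = r.2.val - ∑ j : Fin (dim I), coef r j * lo I j := by
  unfold rrhs
  rw [Qn.val_sub, Qn.val_sum, List.map_map, val_ofRQ, sum_map_range]
  congr 1
  refine Finset.sum_congr rfl fun j _ => ?_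
  rw [lo_eq]
  simp only [Function.comp, Qn.val_mul, val_ofRQ]
  rfl

theorem triv0_false (I : Inst) (h : triv0 I = false) :
    (∀ j : Fin (dim I), 0 < ww I j) ∧
      ∀ r ∈ I.2, (rcoef I r).any qnz = false → Qn.val (rrhs I r) ≤ 0 := by
  unfold triv0 at h
  rw [Bool.or_eq_false_iff] at h
  constructor
  · intro j
    have h1 := h.1
    rw [List.any_eq_false] at h1
    have hj : (j : ℕ) < (wids I).length := by
      unfold wids
      rw [List.length_map]
      exact j.2
    have h2 := h1 ((wids I)[(j : ℕ)]) (List.getElem_mem hj)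
    rw [Qn.le_iff, Qn.val_zero, not_le] at h2
    unfold ww
    rw [List.getD_eq_getElem _ _ hj]
    exact h2
  · intro r hr h1
    have h2 := h.2
    rw [List.any_eq_false] at h2
    have h3 := h2 r hr
    rw [h1] at h3
    simp only [Bool.not_false, Bool.true_and, Bool.not_eq_true', Bool.not_eq_false] at h3
    rw [Qn.le_iff, Qn.val_zero] at h3
    exact h3

theorem triv0_true (I : Inst) (h : triv0 I = true) :
    (∃ j : Fin (dim I), ww I j ≤ 0) ∨
      ∃ r ∈ I.2, (rcoef I r).any qnz = false ∧ 0 < Qn.val (rrhs I r) := by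
  unfold triv0 at h
  rw [Bool.or_eq_true] at h
  rcases h with h | h
  · left
    rw [List.any_eq_true] at h
    obtain ⟨x, hx, h1⟩ := h
    obtain ⟨j, hj, rfl⟩ := List.mem_iff_getElem.mp hx
    have hj' : j < dim I := by
      unfold wids at hj
      rwa [List.length_map] at hj
    refine ⟨⟨j, hj'⟩, ?_⟩
    unfold ww
    rw [List.getD_eq_getElem _ _ hj]
    rwa [Qn.le_iff, Qn.val_zero] at h1
  · right
    rw [List.any_eq_true] at h
    obtain ⟨r, hr, h1⟩ := h
    rw [Bool.and_eq_true, Bool.not_eq_true', Bool.not_eq_true'] at h1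
    refine ⟨r, hr, h1.1, ?_⟩
    have h2 : ¬ Qn.val (rrhs I r) ≤ 0 := by
      intro h3
      have h4 : Qn.le (rrhs I r) Qn.zero = true := by rwa [Qn.le_iff, Qn.val_zero]
      rw [h1.2] at h4
      exact absurd h4 (by decide)
    exact not_le.mp h2

/-! ### Volumes -/

theorem vol_aux {N : ℕ} (l w : Fin N → ℝ) (hw : ∀ j, 0 < w j) (P : Set (Fin N → ℝ)) :
    vol P = (∏ j, w j) * vol {z : Fin N → ℝ | (fun j => l j + w j * z j) ∈ P} := by
  have hp : 0 < ∏ j, w j := Finset.prod_pos fun j _ => hw j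
  have hdet : LinearMap.det (Matrix.toLin' (Matrix.diagonal w)) = ∏ j, w j := by
    rw [LinearMap.det_toLin', Matrix.det_diagonal]
  have h1 : {z : Fin N → ℝ | (fun j => l j + w j * z j) ∈ P} =
      Matrix.toLin' (Matrix.diagonal w) ⁻¹' ((fun y => l + y) ⁻¹' P) := by
    ext z
    have : (fun j => l j + w j * z j) = l + Matrix.toLin' (Matrix.diagonal w) z := by
      funext j
      rw [Matrix.toLin'_apply, Pi.add_apply, Matrix.mulVec_diagonal]
    rw [Set.mem_preimage, Set.mem_preimage, ← this]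
    rfl
  have h2 := Measure.addHaar_preimage_linearMap (volume : Measure (Fin N → ℝ))
    (f := Matrix.toLin' (Matrix.diagonal w)) (by rw [hdet]; exact hp.ne')
    ((fun y => l + y) ⁻¹' P)
  rw [hdet, measure_preimage_add] at h2
  unfold vol
  rw [h1, h2, ENNReal.toReal_mul, ENNReal.toReal_ofReal (abs_nonneg _), abs_of_pos (inv_pos.mpr hp),
    ← mul_assoc, mul_inv_cancel₀ hp.ne', one_mul]

theorem vol_cast {N N' : ℕ} (h : N' = N) (S : Set (Fin N → ℝ)) (S' : Set (Fin N' → ℝ))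
    (hS : ∀ x : Fin N' → ℝ, x ∈ S' ↔ (fun j => x (Fin.cast h.symm j)) ∈ S) : vol S' = vol S := by
  subst h
  congr 1
  ext x
  exact hS x

theorem vol_cube (N : ℕ) : vol {z : Fin N → ℝ | ∀ j, 0 ≤ z j ∧ z j ≤ 1} = 1 := by
  have h1 : {z : Fin N → ℝ | ∀ j, 0 ≤ z j ∧ z j ≤ 1} = Set.Icc 0 1 := by
    ext z
    constructor
    · intro h
      exact ⟨fun j => (h j).1, fun j => (h j).2⟩
    · intro h j
      exact ⟨h.1 j, h.2 j⟩
  unfold vol
  rw [h1, Real.volume_Icc_pi]
  simp

theorem vol_zero_of_width (I : Inst) (j : Fin (dim I)) (hj : ww I j ≤ 0) : vol (poly I) = 0 := by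
  have h1 : poly I ⊆ Set.Icc (lo I) (up I) := fun x hx => ⟨fun j => (hx.1 j).1, fun j => (hx.1 j).2⟩
  have h2 : volume (Set.Icc (lo I) (up I)) = 0 := by
    rw [Real.volume_Icc_pi]
    refine Finset.prod_eq_zero (Finset.mem_univ j) ?_
    rw [ENNReal.ofReal_eq_zero, up_eq, lo_eq, ← ww_eq I j.2]
    exact hj
  unfold vol
  rw [measure_mono_null h1 h2]
  rfl

/-- The point of the polytope with the normalised coordinates `z`. -/
theorem mem_poly (I : Inst) (hw : ∀ j : Fin (dim I), 0 < ww I j) (z : Fin (dim I) → ℝ) :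
    (fun j => lo I j + ww I j * z j) ∈ poly I ↔
      (∀ j, 0 ≤ z j ∧ z j ≤ 1) ∧
        ∀ r ∈ I.2, Qn.val (rrhs I r) ≤ ∑ j : Fin (dim I), coef r j * ww I j * z j := by
  have h1 : (fun j => lo I j + ww I j * z j) ∈ box I ↔ ∀ j, 0 ≤ z j ∧ z j ≤ 1 := by
    refine forall_congr' fun j => ?_
    have h2 := hw j
    have h3 : up I j = lo I j + ww I j := by rw [ww_eq I j.2, up_eq, lo_eq]; ring
    rw [h3]
    constructor
    · rintro ⟨h4, h5⟩
      constructor
      · have : 0 ≤ ww I j * z j := by linarith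
        exact nonneg_of_mul_nonneg_right this h2
      · have h6 : ww I j * z j ≤ ww I j * 1 := by linarith
        exact le_of_mul_le_mul_left h6 h2
    · rintro ⟨h4, h5⟩
      constructor
      · have := mul_nonneg h2.le h4
        linarith
      · have := mul_le_mul_of_nonneg_left h5 h2.le
        linarith
  have h2 : ∀ r : List RQ × RQ, r.2.val ≤ ∑ j : Fin (dim I), coef r j * (lo I j + ww I j * z j) ↔
      Qn.val (rrhs I r) ≤ ∑ j : Fin (dim I), coef r j * ww I j * z j := by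
    intro r
    rw [rrhs_val]
    have h3 : ∑ j : Fin (dim I), coef r j * (lo I j + ww I j * z j) =
        ∑ j : Fin (dim I), coef r j * lo I j + ∑ j : Fin (dim I), coef r j * ww I j * z j := by
      rw [← Finset.sum_add_distrib]
      exact Finset.sum_congr rfl fun j _ => by ring
    rw [h3]
    constructor <;> intro h <;> linarith
  constructor
  · rintro ⟨h3, h4⟩
    exact ⟨h1.mp h3, fun r hr => (h2 r).mp (h4 r hr)⟩
  · rintro ⟨h3, h4⟩
    exact ⟨h1.mpr h3, fun r hr => (h2 r).mpr (h4 r hr)⟩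

theorem any_false (I : Inst) (r : List RQ × RQ) (h : (rcoef I r).any qnz = false)
    (j : Fin (dim I)) : coef r j * ww I j = 0 := by
  by_contra h1
  have h2 := (any_iff I r).mpr ⟨j, h1⟩
  rw [h] at h2
  exact absurd h2 (by decide)

theorem vol_triv (I : Inst) (h : triv0 I = true) : vol (poly I) = 0 := by
  by_cases hw : ∀ j : Fin (dim I), 0 < ww I j
  · rcases triv0_true I h with ⟨j, hj⟩ | ⟨r, hr, h1, h2⟩
    · exact absurd (hw j) (not_lt.mpr hj)
    · have h3 : {z : Fin (dim I) → ℝ | (fun j => lo I j + ww I j * z j) ∈ poly I} = ∅ := by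
        ext z
        constructor
        · intro hz
          have h4 := ((mem_poly I hw z).mp hz).2 r hr
          have h5 : ∑ j : Fin (dim I), coef r j * ww I j * z j = 0 :=
            Finset.sum_eq_zero fun j _ => by rw [any_false I r h1 j, zero_mul]
          rw [h5] at h4
          exact absurd h2 (not_lt.mpr h4)
        · intro hz
          exact hz.elim
      rw [vol_aux (lo I) (fun j => ww I j) hw, h3]
      unfold vol
      rw [measure_empty]
      simp
  · push Not at hw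
    obtain ⟨j, hj⟩ := hw
    exact vol_zero_of_width I j hj

/-! ### The normalised instance -/

theorem nrow_eq (I : Inst) : nrow (nin I) = (rws I).length := by
  unfold nrow nin
  rw [List.length_map]

theorem ncol_eq (I : Inst) : (nin I).1.length = dim I := by
  unfold nin
  rw [List.length_map, List.length_range]

/-- The row `i`. -/
def rr (I : Inst) (i : ℕ) : List RQ × RQ := (rws I).getD i ([], (false, ⟨0⟩, ⟨1⟩))

theorem rr_mem (I : Inst) (i : Fin (nrow (nin I))) : rr I i ∈ rws I := by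
  have h : (i : ℕ) < (rws I).length := by rw [← nrow_eq]; exact i.2
  unfold rr
  rw [List.getD_eq_getElem _ _ h]
  exact List.getElem_mem h

theorem rr_surj (I : Inst) (r : List RQ × RQ) (hr : r ∈ rws I) :
    ∃ i : Fin (nrow (nin I)), rr I i = r := by
  obtain ⟨i, hi, rfl⟩ := List.mem_iff_getElem.mp hr
  refine ⟨⟨i, by rw [nrow_eq]; exact hi⟩, ?_⟩
  unfold rr
  rw [List.getD_eq_getElem _ _ hi]

theorem CR_eq (I : Inst) (j : Fin (nin I).1.length) (i : Fin (nrow (nin I))) :
    CR (nin I) j i = coef (rr I i) j * ww I j := by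
  have hi : (i : ℕ) < (rws I).length := by rw [← nrow_eq]; exact i.2
  have hj : (j : ℕ) < I.1.length := lt_of_lt_of_eq j.2 (ncol_eq I)
  unfold CR lv
  rw [← rcoef_getD I (rr I i) hj]
  unfold nin
  rw [getD_map_range _ _ _ hj, getD_map_lt _ _ _ ([], (false, ⟨0⟩, ⟨1⟩)) hi]
  rfl

theorem eR_eq (I : Inst) (i : Fin (nrow (nin I))) : eR (nin I) i = Qn.val (rrhs I (rr I i)) := by
  have hi : (i : ℕ) < (rws I).length := by rw [← nrow_eq]; exact i.2
  unfold eR lv nin
  simp only
  rw [getD_map_lt _ _ _ ([], (false, ⟨0⟩, ⟨1⟩)) hi]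
  rfl

theorem sum_cast {N N' : ℕ} (h : N' = N) (f : ℕ → ℝ) :
    ∑ j : Fin N', f j = ∑ j : Fin N, f j := by
  subst h
  rfl

theorem SR_eq (I : Inst) (i : Fin (nrow (nin I))) :
    SR (nin I) i = (∑ j, |CR (nin I) j i|) + |eR (nin I) i| + 1 := by
  have hi : (i : ℕ) < (rws I).length := by rw [← nrow_eq]; exact i.2
  have h1 : SR (nin I) i = Qn.val (Qn.add (Qn.add (Qn.sum ((rcoef I (rr I i)).map Qn.abs))
      (Qn.abs (rrhs I (rr I i)))) Qn.one) := by
    unfold SR lv nin
    simp only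
    rw [getD_map_lt _ _ _ ([], (false, ⟨0⟩, ⟨1⟩)) hi]
    rfl
  rw [h1, Qn.val_add, Qn.val_add, Qn.val_one, Qn.val_abs, Qn.val_sum, eR_eq, List.map_map]
  congr 2
  have h2 : ∑ j, |CR (nin I) j i| =
      ∑ j : Fin (dim I), |coef (rr I i) j * ww I j| := by
    rw [← sum_cast (ncol_eq I) (fun j => |coef (rr I i) j * ww I j|)]
    exact Finset.sum_congr rfl fun j _ => by rw [CR_eq]
  rw [h2]
  unfold rcoef
  rw [List.map_map, sum_map_range]
  refine Finset.sum_congr rfl fun j _ => ?_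
  simp only [Function.comp, Qn.val_abs, Qn.val_mul, val_ofRQ]
  rfl

theorem prod_S (I : Inst) : Qn.val (Qn.prod (nin I).2.1) = ∏ i, SR (nin I) i := by
  rw [Qn.val_prod, ← Fin.prod_univ_fun_getElem]
  unfold SR lv nrow
  refine Finset.prod_congr rfl fun i _ => ?_
  rw [List.getD_eq_getElem _ _ i.2]

theorem vol_nin (I : Inst) (h : triv0 I = false) :
    vol (poly I) = Qn.val (Qn.prod (wids I)) *
      vol {x : Fin (nin I).1.length → ℝ | (∀ j, 0 ≤ x j ∧ x j ≤ 1) ∧
        ∀ i, 0 ≤ (∑ j, CR (nin I) j i * x j) - eR (nin I) i ∧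
          (∑ j, CR (nin I) j i * x j) - eR (nin I) i ≤ SR (nin I) i} := by
  obtain ⟨hw, hr⟩ := triv0_false I h
  rw [vol_aux (lo I) (fun j => ww I j) hw, prod_wids]
  congr 1
  symm
  refine vol_cast (ncol_eq I) _ _ fun x => ?_
  rw [Set.mem_ofPred_eq, Set.mem_ofPred_eq, mem_poly I hw]
  have hsum : ∀ i : Fin (nrow (nin I)), ∑ j, CR (nin I) j i * x j =
      ∑ j : Fin (dim I), coef (rr I i) j * ww I j * x (Fin.cast (ncol_eq I).symm j) := by
    intro i
    rw [← Equiv.sum_comp (finCongr (ncol_eq I).symm) (fun j => CR (nin I) j i * x j)]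
    refine Finset.sum_congr rfl fun j _ => ?_
    rw [CR_eq]
    rfl
  constructor
  · rintro ⟨h1, h2⟩
    refine ⟨fun j => h1 _, fun r hr' => ?_⟩
    by_cases h3 : (rcoef I r).any qnz = true
    · obtain ⟨i, hi⟩ := rr_surj I r (by
        unfold rws
        rw [List.mem_filter]
        exact ⟨hr', h3⟩)
      have h4 := (h2 i).1
      rw [hsum, eR_eq, hi] at h4
      linarith
    · rw [Bool.not_eq_true] at h3
      have h5 : ∑ j : Fin (dim I), coef r j * ww I j * x (Fin.cast (ncol_eq I).symm j) = 0 :=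
        Finset.sum_eq_zero fun j _ => by rw [any_false I r h3 j, zero_mul]
      rw [h5]
      exact hr r hr' h3
  · rintro ⟨h1, h2⟩
    have h1' : ∀ j, 0 ≤ x j ∧ x j ≤ 1 := by
      intro j
      have := h1 (Fin.cast (ncol_eq I) j)
      simpa using this
    refine ⟨h1', fun i => ?_⟩
    constructor
    · have h3 := h2 (rr I i) (List.mem_filter.mp (rr_mem I i)).1
      rw [hsum, eR_eq]
      linarith
    · rw [SR_eq]
      have h3 : ∑ j, CR (nin I) j i * x j ≤ ∑ j, |CR (nin I) j i| := by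
        refine Finset.sum_le_sum fun j _ => ?_
        have h4 := le_abs_self (CR (nin I) j i)
        have h5 := abs_nonneg (CR (nin I) j i)
        calc CR (nin I) j i * x j ≤ |CR (nin I) j i| * x j :=
              mul_le_mul_of_nonneg_right h4 (h1' j).1
          _ ≤ |CR (nin I) j i| * 1 := mul_le_mul_of_nonneg_left (h1' j).2 h5
          _ = |CR (nin I) j i| := mul_one _
      have h4 := neg_abs_le (eR (nin I) i)
      linarith

/-! ### Sizes -/

/-- The denominator (`1` instead of `0`). -/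
def dn (q : RQ) : ℕ := if q.2.2.val = 0 then 1 else q.2.2.val

theorem dn_pos (q : RQ) : 1 ≤ dn q := by
  unfold dn
  split_ifs with h <;> omega

theorem dn_le (q : RQ) : dn q ≤ 2 ^ q.bits := by
  have h1 : q.2.2.val < 2 ^ Nat.size q.2.2.val := Nat.lt_size_self _
  have h2 : 2 ^ Nat.size q.2.2.val ≤ 2 ^ q.bits :=
    Nat.pow_le_pow_right (by norm_num) (by unfold RQ.bits; omega)
  have h3 : 1 ≤ 2 ^ q.bits := Nat.one_le_two_pow
  unfold dn
  split_ifs with h <;> omega

theorem val_abs_le (q : RQ) : |RQ.val q| ≤ 2 ^ q.bits := by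
  have h1 : q.2.1.val < 2 ^ Nat.size q.2.1.val := Nat.lt_size_self _
  have h2 : 2 ^ Nat.size q.2.1.val ≤ 2 ^ q.bits :=
    Nat.pow_le_pow_right (by norm_num) (by unfold RQ.bits; omega)
  have h3 : (q.2.1.val : ℝ) ≤ 2 ^ q.bits := by exact_mod_cast (h1.trans_le h2).le
  have h4 : |RQ.val q| = (q.2.1.val : ℝ) / q.2.2.val := by
    unfold RQ.val
    rw [abs_div, abs_mul, Nat.abs_cast, Nat.abs_cast]
    split_ifs <;> simp
  rw [h4]
  rcases Nat.eq_zero_or_pos q.2.2.val with h5 | h5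
  · rw [h5]
    simp
  · have h6 : (1 : ℝ) ≤ q.2.2.val := by exact_mod_cast h5
    have h7 : (0 : ℝ) ≤ q.2.1.val := Nat.cast_nonneg _
    exact (div_le_self h7 h6).trans h3

/-- The integers. -/
abbrev ZZ : Subring ℝ := (Int.castRingHom ℝ).range

theorem mem_ZZ (x : ℝ) : x ∈ ZZ ↔ ∃ z : ℤ, x = z := by
  unfold ZZ
  rw [RingHom.mem_range]
  constructor
  · rintro ⟨z, hz⟩
    exact ⟨z, by rw [← hz]; rfl⟩
  · rintro ⟨z, hz⟩
    exact ⟨z, by rw [hz]; rfl⟩

theorem natCast_mem_ZZ (n : ℕ) : (n : ℝ) ∈ ZZ := natCast_mem ZZ n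

theorem dn_mul (q : RQ) : (dn q : ℝ) * RQ.val q ∈ ZZ := by
  unfold dn RQ.val
  split_ifs with h h1 h1
  · rw [h]
    simp
  · rw [h]
    simp
  · have h2 : (q.2.2.val : ℝ) ≠ 0 := by exact_mod_cast h
    have h3 : (q.2.2.val : ℝ) * (-1 * (q.2.1.val : ℝ) / q.2.2.val) = -(q.2.1.val : ℝ) := by
      field_simp
    rw [h3]
    exact neg_mem (natCast_mem_ZZ _)
  · have h2 : (q.2.2.val : ℝ) ≠ 0 := by exact_mod_cast h
    have h3 : (q.2.2.val : ℝ) * (1 * (q.2.1.val : ℝ) / q.2.2.val) = (q.2.1.val : ℝ) := by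
      field_simp
    rw [h3]
    exact natCast_mem_ZZ _

theorem dvd_mul (q : RQ) (D : ℕ) (h : dn q ∣ D) : (D : ℝ) * RQ.val q ∈ ZZ := by
  obtain ⟨k, rfl⟩ := h
  have h1 : ((dn q * k : ℕ) : ℝ) * RQ.val q = (k : ℝ) * ((dn q : ℝ) * RQ.val q) := by
    push_cast
    ring
  rw [h1]
  exact mul_mem (natCast_mem_ZZ _) (dn_mul q)

theorem prod_le_pow {α : Type} (l : List α) (f g : α → ℕ) (h : ∀ x ∈ l, f x ≤ 2 ^ g x) :
    (l.map f).prod ≤ 2 ^ (l.map g).sum := by
  induction l with
  | nil => simp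
  | cons a l ih =>
    rw [List.map_cons, List.map_cons, List.prod_cons, List.sum_cons, pow_add]
    exact Nat.mul_le_mul (h a (by simp)) (ih fun x hx => h x (by simp [hx]))

theorem one_le_prod {α : Type} (l : List α) (f : α → ℕ) (h : ∀ x ∈ l, 1 ≤ f x) :
    1 ≤ (l.map f).prod := by
  induction l with
  | nil => simp
  | cons a l ih =>
    rw [List.map_cons, List.prod_cons]
    exact Nat.one_le_iff_ne_zero.mpr (Nat.mul_ne_zero
      (Nat.one_le_iff_ne_zero.mp (h a (by simp)))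
      (Nat.one_le_iff_ne_zero.mp (ih fun x hx => h x (by simp [hx]))))

theorem len_le_sum {α : Type} (l : List α) (f : α → ℕ) (h : ∀ x ∈ l, 1 ≤ f x) :
    l.length ≤ (l.map f).sum := by
  induction l with
  | nil => simp
  | cons a l ih =>
    rw [List.map_cons, List.sum_cons, List.length_cons]
    have h1 := h a (by simp)
    have h2 := ih fun x hx => h x (by simp [hx])
    omega

theorem mem_le_sum {α : Type} (l : List α) (f : α → ℕ) {x : α} (hx : x ∈ l) :
    f x ≤ (l.map f).sum :=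
  List.single_le_sum (by simp) _ (List.mem_map_of_mem hx)

/-- The size of the box. -/
def bsz (I : Inst) : ℕ := (I.1.map fun z => z.1.bits + z.2.bits).sum
/-- The size of the rows. -/
def rsz (I : Inst) : ℕ := (I.2.map fun r => (r.1.map RQ.bits).sum + r.2.bits).sum

theorem isize_eq (I : Inst) : isize I = bsz I + rsz I := rfl

/-- The common denominator of the box. -/
def bdn (I : Inst) : ℕ := (I.1.map fun z => dn z.1 * dn z.2).prod
/-- The common denominator of the rows. -/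
def rdn (I : Inst) : ℕ := (I.2.map fun r => (r.1.map dn).prod * dn r.2).prod

theorem bdn_le (I : Inst) : bdn I ≤ 2 ^ bsz I := by
  refine prod_le_pow _ _ _ fun z _ => ?_
  rw [pow_add]
  exact Nat.mul_le_mul (dn_le _) (dn_le _)

theorem rdn_le (I : Inst) : rdn I ≤ 2 ^ rsz I := by
  refine prod_le_pow _ _ _ fun r _ => ?_
  rw [pow_add]
  exact Nat.mul_le_mul (prod_le_pow _ _ _ fun x _ => dn_le x) (dn_le _)

theorem bdn_pos (I : Inst) : 1 ≤ bdn I :=
  one_le_prod _ _ fun _ _ => Nat.mul_pos (dn_pos _) (dn_pos _)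

theorem rdn_pos (I : Inst) : 1 ≤ rdn I :=
  one_le_prod _ _ fun _ _ => Nat.mul_pos (one_le_prod _ _ fun x _ => dn_pos x) (dn_pos _)

theorem bits_pos (q : RQ) : 1 ≤ q.bits := by unfold RQ.bits; omega

theorem dim_le (I : Inst) : dim I ≤ bsz I :=
  len_le_sum _ _ fun z _ => (bits_pos z.1).trans (Nat.le_add_right _ _)

theorem nrow_le (I : Inst) : nrow (nin I) ≤ I.2.length := by
  rw [nrow_eq]
  exact List.length_filter_le _ _

theorem rows_le (I : Inst) : I.2.length ≤ rsz I :=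
  len_le_sum _ _ fun r _ => (bits_pos r.2).trans (Nat.le_add_left _ _)

/-- The bounds `j` of an instance as a pair. -/
def bb (I : Inst) (j : ℕ) : RQ × RQ := I.1.getD j ((false, ⟨0⟩, ⟨1⟩), (false, ⟨0⟩, ⟨1⟩))

theorem bb_mem (I : Inst) {j : ℕ} (hj : j < I.1.length) : bb I j ∈ I.1 := by
  unfold bb
  rw [List.getD_eq_getElem _ _ hj]
  exact List.getElem_mem hj

theorem ll_bd (I : Inst) {j : ℕ} (hj : j < I.1.length) :
    |ll I j| ≤ 2 ^ bsz I ∧ (bdn I : ℝ) * ll I j ∈ ZZ := by
  have h1 := bb_mem I hj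
  constructor
  · refine (val_abs_le _).trans (pow_le_pow_right₀ (by norm_num) ?_)
    exact (Nat.le_add_right _ _).trans (mem_le_sum I.1 (fun z => z.1.bits + z.2.bits) h1)
  · refine dvd_mul _ _ ((Dvd.intro _ rfl).trans
      (List.dvd_prod (List.mem_map_of_mem (f := fun z : RQ × RQ => dn z.1 * dn z.2) h1)))

theorem uu_bd (I : Inst) {j : ℕ} (hj : j < I.1.length) :
    |uu' I j| ≤ 2 ^ bsz I ∧ (bdn I : ℝ) * uu' I j ∈ ZZ := by
  have h1 := bb_mem I hj
  constructor
  · refine (val_abs_le _).trans (pow_le_pow_right₀ (by norm_num) ?_)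
    exact (Nat.le_add_left _ _).trans (mem_le_sum I.1 (fun z => z.1.bits + z.2.bits) h1)
  · refine dvd_mul _ _ ((Dvd.intro_left _ rfl).trans
      (List.dvd_prod (List.mem_map_of_mem (f := fun z : RQ × RQ => dn z.1 * dn z.2) h1)))

theorem coef_bd (I : Inst) (r : List RQ × RQ) (hr : r ∈ I.2) (j : ℕ) :
    |coef r j| ≤ 2 ^ rsz I ∧ (rdn I : ℝ) * coef r j ∈ ZZ := by
  by_cases hj : j < r.1.length
  · have h1 : coef r j = RQ.val (r.1[j]) := by
      unfold coef
      rw [List.getD_eq_getElem _ _ hj]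
    rw [h1]
    have h2 : r.1[j] ∈ r.1 := List.getElem_mem hj
    constructor
    · refine (val_abs_le _).trans (pow_le_pow_right₀ (by norm_num) ?_)
      refine (mem_le_sum r.1 RQ.bits h2).trans ((Nat.le_add_right _ _).trans
        (mem_le_sum I.2 (fun r => (r.1.map RQ.bits).sum + r.2.bits) hr))
    · refine dvd_mul _ _ ((List.dvd_prod (List.mem_map_of_mem (f := dn) h2)).trans
        ((Dvd.intro _ rfl).trans (List.dvd_prod (List.mem_map_of_mem
          (f := fun r : List RQ × RQ => (r.1.map dn).prod * dn r.2) hr))))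
  · have h1 : coef r j = 0 := by
      unfold coef
      rw [List.getD_eq_default _ _ (not_lt.mp hj), val_dflt]
    rw [h1]
    simp

theorem rhs_bd (I : Inst) (r : List RQ × RQ) (hr : r ∈ I.2) :
    |r.2.val| ≤ 2 ^ rsz I ∧ (rdn I : ℝ) * r.2.val ∈ ZZ := by
  constructor
  · refine (val_abs_le _).trans (pow_le_pow_right₀ (by norm_num) ?_)
    exact (Nat.le_add_left _ _).trans
      (mem_le_sum I.2 (fun r => (r.1.map RQ.bits).sum + r.2.bits) hr)
  · refine dvd_mul _ _ ((Dvd.intro_left _ rfl).trans (List.dvd_prod (List.mem_map_of_mem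
      (f := fun r : List RQ × RQ => (r.1.map dn).prod * dn r.2) hr)))

theorem ww_bd (I : Inst) {j : ℕ} (hj : j < I.1.length) :
    |ww I j| ≤ 2 * 2 ^ bsz I ∧ (bdn I : ℝ) * ww I j ∈ ZZ := by
  obtain ⟨h1, h2⟩ := ll_bd I hj
  obtain ⟨h3, h4⟩ := uu_bd I hj
  rw [ww_eq I hj]
  constructor
  · exact (abs_sub _ _).trans (by linarith)
  · rw [mul_sub]
    exact sub_mem h4 h2

theorem CR_bd (I : Inst) (j : Fin (nin I).1.length) (i : Fin (nrow (nin I))) :
    |CR (nin I) j i| ≤ 2 ^ (3 * isize I) ∧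
      ((bdn I * rdn I : ℕ) : ℝ) * CR (nin I) j i ∈ ZZ := by
  have hr : rr I i ∈ I.2 := (List.mem_filter.mp (rr_mem I i)).1
  have hj : (j : ℕ) < I.1.length := lt_of_lt_of_eq j.2 (ncol_eq I)
  obtain ⟨h1, h2⟩ := coef_bd I (rr I i) hr j
  obtain ⟨h3, h4⟩ := ww_bd I hj
  rw [CR_eq]
  constructor
  · rw [abs_mul]
    have h5 : 1 ≤ rsz I := by
      have := rows_le I
      have := List.length_pos_of_mem hr
      omega
    calc |coef (rr I i) j| * |ww I j| ≤ 2 ^ rsz I * (2 * 2 ^ bsz I) :=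
          mul_le_mul h1 h3 (abs_nonneg _) (by positivity)
      _ = 2 ^ (rsz I + (1 + bsz I)) := by rw [pow_add, pow_add, pow_one]
      _ ≤ 2 ^ (3 * isize I) := pow_le_pow_right₀ (by norm_num) (by rw [isize_eq]; omega)
  · have h5 : ((bdn I * rdn I : ℕ) : ℝ) * (coef (rr I i) j * ww I j) =
        ((rdn I : ℝ) * coef (rr I i) j) * ((bdn I : ℝ) * ww I j) := by
      push_cast
      ring
    rw [h5]
    exact mul_mem h2 h4

theorem eR_bd (I : Inst) (i : Fin (nrow (nin I))) :
    |eR (nin I) i| ≤ 2 ^ (3 * isize I) ∧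
      ((bdn I * rdn I : ℕ) : ℝ) * eR (nin I) i ∈ ZZ := by
  have hr : rr I i ∈ I.2 := (List.mem_filter.mp (rr_mem I i)).1
  obtain ⟨h1, h2⟩ := rhs_bd I (rr I i) hr
  rw [eR_eq, rrhs_val]
  constructor
  · have h3 : |∑ j : Fin (dim I), coef (rr I i) j * lo I j| ≤
        (dim I : ℝ) * (2 ^ rsz I * 2 ^ bsz I) := by
      refine (Finset.abs_sum_le_sum_abs _ _).trans ?_
      have h4 : ∑ j : Fin (dim I), |coef (rr I i) j * lo I j| ≤
          ∑ _j : Fin (dim I), (2 : ℝ) ^ rsz I * 2 ^ bsz I := by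
        refine Finset.sum_le_sum fun j _ => ?_
        rw [abs_mul, lo_eq]
        exact mul_le_mul (coef_bd I (rr I i) hr j).1 (ll_bd I j.2).1 (abs_nonneg _) (by positivity)
      refine h4.trans (le_of_eq ?_)
      rw [Finset.sum_const, Finset.card_univ, Fintype.card_fin, nsmul_eq_mul]
    have h5 : (2 : ℝ) ^ rsz I ≤ 2 ^ rsz I * 2 ^ bsz I :=
      le_mul_of_one_le_right (by positivity) (one_le_pow₀ (by norm_num))
    have h6 : ((dim I : ℝ) + 1) ≤ 2 ^ bsz I := by
      have h7 : dim I + 1 ≤ 2 ^ bsz I :=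
        (Nat.lt_two_pow_self).trans_le (Nat.pow_le_pow_right (by norm_num) (dim_le I))
      exact_mod_cast h7
    calc |(rr I i).2.val - ∑ j : Fin (dim I), coef (rr I i) j * lo I j|
        ≤ |(rr I i).2.val| + |∑ j : Fin (dim I), coef (rr I i) j * lo I j| := abs_sub _ _
      _ ≤ 2 ^ rsz I * 2 ^ bsz I + (dim I : ℝ) * (2 ^ rsz I * 2 ^ bsz I) :=
          add_le_add (h1.trans h5) h3
      _ = ((dim I : ℝ) + 1) * (2 ^ rsz I * 2 ^ bsz I) := by ring
      _ ≤ 2 ^ bsz I * (2 ^ rsz I * 2 ^ bsz I) :=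
          mul_le_mul_of_nonneg_right h6 (by positivity)
      _ = 2 ^ (bsz I + (rsz I + bsz I)) := by rw [pow_add, pow_add]
      _ ≤ 2 ^ (3 * isize I) := pow_le_pow_right₀ (by norm_num) (by rw [isize_eq]; omega)
  · have h5 : ((bdn I * rdn I : ℕ) : ℝ) *
        ((rr I i).2.val - ∑ j : Fin (dim I), coef (rr I i) j * lo I j) =
        (bdn I : ℝ) * ((rdn I : ℝ) * (rr I i).2.val) -
          ∑ j : Fin (dim I), ((rdn I : ℝ) * coef (rr I i) j) * ((bdn I : ℝ) * lo I j) := by
      rw [mul_sub, Finset.mul_sum]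
      push_cast
      congr 1
      · ring
      · exact Finset.sum_congr rfl fun j _ => by ring
    rw [h5]
    refine sub_mem (mul_mem (natCast_mem_ZZ _) h2) (sum_mem fun j _ => ?_)
    rw [lo_eq]
    exact mul_mem (coef_bd I (rr I i) hr j).2 (ll_bd I j.2).2

/-- NIN. -/
theorem nin : NinStmt := by
  intro I
  refine ⟨vol_triv I, fun h => ?_⟩
  obtain ⟨hw, hr⟩ := triv0_false I h
  have hwf : Wf (Pool.Agent.Helper92.FR.nin I) := by
    constructor
    · intro w hw
      have h1 : w ∈ (List.range I.1.length).map fun j =>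
        (rws I).map fun r => (rcoef I r).getD j Qn.zero := hw
      rw [List.mem_map] at h1
      obtain ⟨j, -, rfl⟩ := h1
      rw [List.length_map, nrow_eq]
    · rw [nrow_eq]
      show ((rws I).map fun r => rrhs I r).length = _
      rw [List.length_map]
  have hlen : (Pool.Agent.Helper92.FR.nin I).1.length + nrow (Pool.Agent.Helper92.FR.nin I) ≤
      isize I := by
    rw [ncol_eq, isize_eq]
    exact Nat.add_le_add (dim_le I) ((nrow_le I).trans (rows_le I))
  have hpos : 0 < Qn.val (Qn.prod (wids I)) := by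
    rw [prod_wids]
    exact Finset.prod_pos fun j _ => hw j
  have hvol := vol_nin I h
  refine ⟨hwf, ncol_eq I, nrow_le I, hlen, SR_eq I, hpos, ?_, ?_, ?_, fun i j => (CR_bd I j i).1,
    fun i => (eR_bd I i).1, bdn I * rdn I, Nat.mul_pos (bdn_pos I) (rdn_pos I), ?_, ?_, ?_⟩
  · intro h0
    have h1 : IsEmpty (Fin (nrow (Pool.Agent.Helper92.FR.nin I))) := by
      rw [h0]
      exact Fin.isEmpty
    rw [hvol]
    have h2 : {x : Fin (Pool.Agent.Helper92.FR.nin I).1.length → ℝ |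
        (∀ j, 0 ≤ x j ∧ x j ≤ 1) ∧ ∀ i, 0 ≤ (∑ j, CR (Pool.Agent.Helper92.FR.nin I) j i * x j) -
          eR (Pool.Agent.Helper92.FR.nin I) i ∧
          (∑ j, CR (Pool.Agent.Helper92.FR.nin I) j i * x j) -
            eR (Pool.Agent.Helper92.FR.nin I) i ≤ SR (Pool.Agent.Helper92.FR.nin I) i} =
        {x | ∀ j, 0 ≤ x j ∧ x j ≤ 1} := by
      ext x
      exact ⟨fun h => h.1, fun h => ⟨h, fun i => h1.elim i⟩⟩
    rw [h2, vol_cube, mul_one]
  · intro _
    rw [hvol, prod_S]
    have h1 : 0 < ∏ i, SR (Pool.Agent.Helper92.FR.nin I) i := by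
      refine Finset.prod_pos fun i _ => ?_
      rw [SR_eq]
      have h2 : 0 ≤ ∑ j, |CR (Pool.Agent.Helper92.FR.nin I) j i| :=
        Finset.sum_nonneg fun j _ => abs_nonneg _
      have h3 := abs_nonneg (eR (Pool.Agent.Helper92.FR.nin I) i)
      linarith
    unfold ff
    rw [mul_assoc, mul_div_cancel₀ _ h1.ne']
    rfl
  · intro i
    have h1 := (List.mem_filter.mp (rr_mem I i)).2
    obtain ⟨j, hj⟩ := (any_iff I (rr I i)).mp h1
    refine ⟨Fin.cast (ncol_eq I).symm j, ?_⟩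
    rw [CR_eq]
    exact hj
  · calc bdn I * rdn I ≤ 2 ^ bsz I * 2 ^ rsz I := Nat.mul_le_mul (bdn_le I) (rdn_le I)
      _ = 2 ^ (bsz I + rsz I) := (pow_add _ _ _).symm
      _ ≤ 2 ^ (3 * isize I) := Nat.pow_le_pow_right (by norm_num) (by rw [isize_eq]; omega)
  · intro i j
    exact (mem_ZZ _).mp (CR_bd I j i).2
  · intro i
    exact (mem_ZZ _).mp (eR_bd I i).2

end Pool.Agent.Helper13.FR
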