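import Mathlib
import Pool.Agent.Helper92.FR.GoalsA

/-!
# Packet FR-SUP

The law of `YY` has a density of at most `(2n)^d`.
-/

set_option autoImplicit false

namespace Pool.Agent.Helper13.FR

open MeasureTheory
open Pool.Agent.Helper92.FR
open scoped ENNReal

/-- a product of measures dominated by multiples of the Lebesgue measure -/
theorem pi_le {ι : Type*} [Fintype ι] (μ : ι → Measure ℝ) [∀ i, SigmaFinite (μ i)] (c : ι → ℝ≥0∞)
    (h0 : ∀ i, c i ≠ 0) (h1 : ∀ i, c i ≠ ⊤) (h : ∀ i, μ i ≤ c i • (volume : Measure ℝ))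
    {A : Set (ι → ℝ)} (hA : MeasurableSet A) :
    Measure.pi μ A ≤ (∏ i, c i) * volume A := by
  have hk0 : ∏ i, c i ≠ 0 := Finset.prod_ne_zero_iff.mpr (fun i _ => h0 i)
  have hk1 : ∏ i, c i ≠ ⊤ := ENNReal.prod_ne_top (fun i _ => h1 i)
  have key : (∏ i, c i)⁻¹ • (Measure.pi μ).toOuterMeasure ≤
      OuterMeasure.pi (fun _ : ι => (volume : Measure ℝ).toOuterMeasure) := by
    rw [OuterMeasure.le_pi]
    intro s _
    rw [smul_apply, smul_eq_mul, Measure.coe_toOuterMeasure, Measure.pi_pi]
    have h2 : ∏ i, μ i (s i) ≤ ∏ i, (c i * (volume : Measure ℝ) (s i)) := by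
      apply Finset.prod_le_prod'
      intro i _
      exact h i (s i)
    calc (∏ i, c i)⁻¹ * ∏ i, μ i (s i)
        ≤ (∏ i, c i)⁻¹ * ∏ i, (c i * (volume : Measure ℝ) (s i)) := by gcongr
      _ = ∏ i, (volume : Measure ℝ) (s i) := by
          rw [Finset.prod_mul_distrib, ← mul_assoc, ENNReal.inv_mul_cancel hk0 hk1, one_mul]
      _ = ∏ i, (volume : Measure ℝ).toOuterMeasure (s i) := rfl
  have hv : (volume : Measure (ι → ℝ)) A =
      OuterMeasure.pi (fun _ : ι => (volume : Measure ℝ).toOuterMeasure) A := by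
    rw [volume_pi, Measure.pi, toMeasure_apply _ _ hA]
  rw [hv]
  have h3 := key A
  rw [smul_apply, smul_eq_mul, Measure.coe_toOuterMeasure] at h3
  calc Measure.pi μ A = (∏ i, c i) * ((∏ i, c i)⁻¹ * Measure.pi μ A) := by
        rw [← mul_assoc, ENNReal.mul_inv_cancel hk0 hk1, one_mul]
    _ ≤ _ := by gcongr

/-- the law `tl a` is dominated by `(1 + |a|)` times the Lebesgue measure -/
theorem tl_le (hTRD : TrdStmt) (a : ℝ) :
    tl a ≤ ENNReal.ofReal (1 + |a|) • (volume : Measure ℝ) := by
  unfold tl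
  calc (volume.restrict (Set.Icc (0 : ℝ) 1)).withDensity
        (fun x => ENNReal.ofReal (Real.exp (a * x) / MM a))
      ≤ (volume.restrict (Set.Icc (0 : ℝ) 1)).withDensity
        (fun _ => ENNReal.ofReal (1 + |a|)) := by
        apply withDensity_mono
        rw [Filter.EventuallyLE, ae_restrict_iff' measurableSet_Icc]
        refine Filter.Eventually.of_forall (fun x hx => ?_)
        exact ENNReal.ofReal_le_ofReal (hTRD a x hx.1 hx.2)
    _ = ENNReal.ofReal (1 + |a|) • (volume.restrict (Set.Icc (0 : ℝ) 1)) := by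
        rw [withDensity_const]
    _ ≤ ENNReal.ofReal (1 + |a|) • (volume : Measure ℝ) := by
        intro s
        rw [Measure.smul_apply, Measure.smul_apply, smul_eq_mul, smul_eq_mul]
        gcongr
        exact Measure.restrict_le_self

/-- symmetrised Cauchy-Binet formula -/
theorem gram_sum {ι : Type*} [Fintype ι] {d : ℕ} (B : Matrix (Fin d) ι ℝ) :
    (Nat.factorial d : ℝ) * (B * B.transpose).det =
      ∑ f : Fin d → ι, (B.submatrix id f).det ^ 2 := by
  classical
  have h1 : (B * B.transpose).det =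
      ∑ f : Fin d → ι, (∏ i, B i (f i)) * (B.transpose.submatrix f id).det := by
    have e : (B * B.transpose) = fun i => ∑ j, B i j • B.transpose j := by
      funext i a
      simp [Matrix.mul_apply, Finset.sum_apply]
    have e2 : (B * B.transpose).det =
        (Matrix.detRowAlternating (n := Fin d) (R := ℝ)).toMultilinearMap
          (fun i => ∑ j, B i j • B.transpose j) := by
      rw [e]; rfl
    rw [e2, MultilinearMap.map_sum]
    refine Finset.sum_congr rfl fun f _ => ?_
    rw [MultilinearMap.map_smul_univ]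
    rfl
  have h2 : ∀ f : Fin d → ι, (B.submatrix id f).det ^ 2 =
      ∑ σ : Equiv.Perm (Fin d), (Equiv.Perm.sign σ : ℤ) *
        (∏ i, B (σ i) (f i)) * (B.transpose.submatrix f id).det := by
    intro f
    have e3 : (B.transpose.submatrix f id).det = (B.submatrix id f).det := by
      rw [← Matrix.det_transpose, Matrix.transpose_submatrix, Matrix.transpose_transpose]
    rw [e3, ← Finset.sum_mul, sq]
    congr 1
    rw [Matrix.det_apply']
    rfl
  rw [Finset.sum_congr rfl (fun f _ => h2 f), Finset.sum_comm]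
  have h3 : ∀ σ : Equiv.Perm (Fin d), ∑ f : Fin d → ι, ((Equiv.Perm.sign σ : ℤ) : ℝ) *
        (∏ i, B (σ i) (f i)) * (B.transpose.submatrix f id).det = (B * B.transpose).det := by
    intro σ
    rw [h1]
    refine Fintype.sum_equiv (Equiv.arrowCongr σ (Equiv.refl ι)) _ _ (fun f => ?_)
    have e4 : ∀ i, (Equiv.arrowCongr σ (Equiv.refl ι)) f i = f (σ.symm i) := fun i => rfl
    have e5 : ∏ i, B (σ i) (f i) = ∏ i, B i ((Equiv.arrowCongr σ (Equiv.refl ι)) f i) := by
      rw [← Equiv.prod_comp σ (fun i => B i ((Equiv.arrowCongr σ (Equiv.refl ι)) f i))]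
      refine Finset.prod_congr rfl (fun i _ => ?_)
      rw [e4, Equiv.symm_apply_apply]
    have e6 : (B.transpose.submatrix f id).det =
        ((Equiv.Perm.sign σ : ℤ) : ℝ) *
          (B.transpose.submatrix ((Equiv.arrowCongr σ (Equiv.refl ι)) f) id).det := by
      rw [← Matrix.det_permute σ]
      congr 1
      ext i j
      simp only [Matrix.submatrix_apply, Matrix.transpose_apply, id]
      rw [e4, Equiv.symm_apply_apply]
    rw [e6, e5]
    have e7 : ((Equiv.Perm.sign σ : ℤ) : ℝ) * ((Equiv.Perm.sign σ : ℤ) : ℝ) = 1 := by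
      rw [← Int.cast_mul, Int.units_coe_mul_self, Int.cast_one]
    linear_combination (∏ i, B i ((Equiv.arrowCongr σ (Equiv.refl ι)) f i)) *
      (B.transpose.submatrix ((Equiv.arrowCongr σ (Equiv.refl ι)) f) id).det * e7
  rw [Finset.sum_congr rfl (fun σ _ => h3 σ), Finset.sum_const, Finset.card_univ,
    Fintype.card_perm, Fintype.card_fin, nsmul_eq_mul]

/-- volume of the preimage under an affine map -/
theorem vol_aff {d : ℕ} (M : Matrix (Fin d) (Fin d) ℝ) (hM : M.det ≠ 0) (v : Fin d → ℝ)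
    (A : Set (Fin d → ℝ)) :
    volume {u : Fin d → ℝ | M.mulVec u + v ∈ A} = ENNReal.ofReal |M.det⁻¹| * volume A := by
  have h1 : {u : Fin d → ℝ | M.mulVec u + v ∈ A} =
      (Matrix.toLin' M) ⁻¹' ((fun x => x + v) ⁻¹' A) := by
    ext u
    simp [Matrix.toLin'_apply]
  have hdet : LinearMap.det (Matrix.toLin' M) = M.det := LinearMap.det_toLin' M
  rw [h1, Measure.addHaar_preimage_linearMap _ (by rw [hdet]; exact hM), hdet,
    measure_preimage_add_right]

/-- a good set of columns -/
theorem exists_cols {N d : ℕ} (C : Fin N → Fin d → ℝ) (S lam : Fin d → ℝ)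
    (T : Matrix (Fin d) (Fin d) ℝ) (hT : Nor C S lam T) :
    ∃ f : Fin d → Fin N ⊕ Fin d, Function.Injective f ∧
      (T * (Matrix.of fun i b => col C S (f b) i)).det ≠ 0 ∧
      (∏ b, (1 + |aa C S lam (f b)|)) *
        |(T * (Matrix.of fun i b => col C S (f b) i)).det⁻¹| ≤ (2 * ((N : ℝ) + d)) ^ d := by
  classical
  obtain ⟨h, hh, hD⟩ := hT
  set W : Matrix (Fin d) (Fin N ⊕ Fin d) ℝ :=
    Matrix.of fun i j => col C S j i * (1 / (1 + |aa C S lam j|)) with hW
  have hHH : HH C S lam = W * W.transpose := by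
    ext i k
    rw [Matrix.mul_apply]
    simp only [HH, hW, Matrix.of_apply, Matrix.transpose_apply]
    refine Finset.sum_congr rfl (fun j _ => ?_)
    ring
  have hBB : (T * W) * (T * W).transpose = Matrix.diagonal h := by
    rw [Matrix.transpose_mul, ← hD, hHH]
    simp only [Matrix.mul_assoc]
  have hdet : (1 / 2 : ℝ) ^ d ≤ ((T * W) * (T * W).transpose).det := by
    rw [hBB, Matrix.det_diagonal]
    calc (1 / 2 : ℝ) ^ d = ∏ _i : Fin d, (1 / 2 : ℝ) := by
          rw [Finset.prod_const, Finset.card_univ, Fintype.card_fin]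
      _ ≤ ∏ i, h i := Finset.prod_le_prod (fun i _ => by norm_num) (fun i _ => (hh i).1)
  have hsum := gram_sum (T * W)
  have hfac : (1 : ℝ) ≤ (Nat.factorial d : ℝ) := by
    exact_mod_cast Nat.one_le_iff_ne_zero.mpr (Nat.factorial_ne_zero d)
  have hle : (1 / 2 : ℝ) ^ d ≤ ∑ f : Fin d → Fin N ⊕ Fin d, ((T * W).submatrix id f).det ^ 2 := by
    rw [← hsum]
    have h0 : (0 : ℝ) ≤ (1 / 2 : ℝ) ^ d := by positivity
    nlinarith
  have hn : (0 : ℝ) < ((N : ℝ) + d) ^ d := by
    rcases Nat.eq_zero_or_pos d with hd | hd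
    · subst hd; simp
    · have : (0 : ℝ) < (d : ℝ) := by exact_mod_cast hd
      positivity
  have hn1 : (1 : ℝ) ≤ (2 * ((N : ℝ) + d)) ^ d := by
    rcases Nat.eq_zero_or_pos d with hd | hd
    · subst hd; simp
    · have : (1 : ℝ) ≤ (d : ℝ) := by exact_mod_cast hd
      have h2 : (0 : ℝ) ≤ (N : ℝ) := Nat.cast_nonneg N
      exact one_le_pow₀ (by linarith)
  have : Nonempty (Fin d → Fin N ⊕ Fin d) := ⟨fun i => Sum.inr i⟩
  obtain ⟨f, _, hf⟩ : ∃ f ∈ (Finset.univ : Finset (Fin d → Fin N ⊕ Fin d)),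
      (1 / 2 : ℝ) ^ d / ((N : ℝ) + d) ^ d ≤ ((T * W).submatrix id f).det ^ 2 := by
    apply Finset.exists_le_of_sum_le Finset.univ_nonempty
    rw [Finset.sum_const, Finset.card_univ, Fintype.card_fun, Fintype.card_sum,
      Fintype.card_fin, Fintype.card_fin, nsmul_eq_mul]
    push_cast
    rw [mul_div_cancel₀ _ hn.ne']
    exact hle
  have hK : (1 / 2 : ℝ) ^ d / ((N : ℝ) + d) ^ d = ((2 * ((N : ℝ) + d)) ^ d)⁻¹ := by
    rw [mul_pow, one_div, inv_pow, mul_inv, div_eq_mul_inv]
  rw [hK] at hf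
  have hpos : 0 < ((T * W).submatrix id f).det ^ 2 :=
    lt_of_lt_of_le (inv_pos.mpr (lt_of_lt_of_le one_pos hn1)) hf
  have hne : ((T * W).submatrix id f).det ≠ 0 := by
    intro h0
    rw [h0] at hpos
    norm_num at hpos
  have hinj : Function.Injective f := by
    intro a b hab
    by_contra hne2
    apply hne
    apply Matrix.det_zero_of_column_eq hne2
    intro k
    simp only [Matrix.submatrix_apply, hab]
  have hfac2 : (T * W).submatrix id f =
      (T * (Matrix.of fun i b => col C S (f b) i)) *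
        Matrix.diagonal (fun b => 1 / (1 + |aa C S lam (f b)|)) := by
    rw [Matrix.mul_assoc]
    ext i b
    rw [Matrix.submatrix_apply, Matrix.mul_apply, Matrix.mul_apply]
    refine Finset.sum_congr rfl (fun k _ => ?_)
    rw [Matrix.mul_diagonal]
    rfl
  have hdet2 : ((T * W).submatrix id f).det =
      (T * (Matrix.of fun i b => col C S (f b) i)).det *
        ∏ b, (1 / (1 + |aa C S lam (f b)|)) := by
    rw [hfac2, Matrix.det_mul, Matrix.det_diagonal]
  have hne2 : (T * (Matrix.of fun i b => col C S (f b) i)).det ≠ 0 := by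
    intro h0
    apply hne
    rw [hdet2, h0, zero_mul]
  refine ⟨f, hinj, hne2, ?_⟩
  have hprod : ∏ b, (1 + |aa C S lam (f b)|) = |(∏ b, (1 / (1 + |aa C S lam (f b)|)))⁻¹| := by
    have h1 : (∏ b, (1 / (1 + |aa C S lam (f b)|)))⁻¹ = ∏ b, (1 + |aa C S lam (f b)|) := by
      rw [← Finset.prod_inv_distrib]
      refine Finset.prod_congr rfl (fun b _ => ?_)
      rw [one_div, inv_inv]
    rw [h1, abs_of_nonneg]
    exact Finset.prod_nonneg (fun b _ => by positivity)
  have heq : (∏ b, (1 + |aa C S lam (f b)|)) *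
        |(T * (Matrix.of fun i b => col C S (f b) i)).det⁻¹| =
      |((T * W).submatrix id f).det|⁻¹ := by
    rw [hprod, ← abs_mul, ← mul_inv, mul_comm (∏ b, (1 / (1 + |aa C S lam (f b)|))), ← hdet2,
      abs_inv]
  rw [heq]
  have hDpos : 0 < |((T * W).submatrix id f).det| := abs_pos.mpr hne
  have hD2 : ((2 * ((N : ℝ) + d)) ^ d)⁻¹ ≤ |((T * W).submatrix id f).det| := by
    have hKpos : (0 : ℝ) < (2 * ((N : ℝ) + d)) ^ d := lt_of_lt_of_le one_pos hn1
    have h1 : (((2 * ((N : ℝ) + d)) ^ d)⁻¹) ^ 2 ≤ |((T * W).submatrix id f).det| ^ 2 := by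
      rw [sq_abs]
      refine le_trans ?_ hf
      have h2 : ((2 * ((N : ℝ) + d)) ^ d)⁻¹ ≤ 1 := inv_le_one_of_one_le₀ hn1
      have h3 : 0 ≤ ((2 * ((N : ℝ) + d)) ^ d)⁻¹ := by positivity
      nlinarith
    exact (pow_le_pow_iff_left₀ (by positivity) hDpos.le two_ne_zero).mp h1
  exact inv_le_of_inv_le₀ (lt_of_lt_of_le one_pos hn1) hD2

/-- `YY` is measurable -/
theorem measurable_YY {N d : ℕ} (C : Fin N → Fin d → ℝ) (S e : Fin d → ℝ)
    (T : Matrix (Fin d) (Fin d) ℝ) : Measurable (YY C S e T) := by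
  apply measurable_pi_lambda
  intro i
  unfold YY
  refine Finset.measurable_sum _ (fun i' _ => ?_)
  refine Measurable.const_mul ?_ _
  refine Measurable.sub_const ?_ _
  refine Finset.measurable_sum _ (fun j _ => ?_)
  exact (measurable_pi_apply j).const_mul _

/-- the packet -/
theorem sup (hTR0 : Tr0Stmt) (hTRD : TrdStmt) : SupStmt := by
  classical
  intro N d C S e lam T hT A hA
  obtain ⟨f, hinj, hdet, hbd⟩ := exists_cols C S lam T hT
  have hprob : ∀ j, IsProbabilityMeasure (tl (aa C S lam j)) := fun j => (hTR0 _).2.1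
  rw [Measure.map_apply (measurable_YY C S e T) hA]
  obtain ⟨p, φ, hφf⟩ : ∃ (p : Fin N ⊕ Fin d → Prop) (φ : Fin d ≃ Subtype p),
      ∀ b, ((φ b : Subtype p) : Fin N ⊕ Fin d) = f b :=
    ⟨fun j => j ∈ Set.range f, Equiv.ofInjective f hinj, fun b => rfl⟩
  have hmp := measurePreserving_piEquivPiSubtypeProd (fun j => tl (aa C S lam j)) p
  have hmeas : MeasurableSet (YY C S e T ⁻¹' A) := measurable_YY C S e T hA
  have h1 : pr C S lam (YY C S e T ⁻¹' A) =
      ((Measure.pi fun i : Subtype p => tl (aa C S lam i)).prod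
        (Measure.pi fun i : {i // ¬ p i} => tl (aa C S lam i)))
        ((MeasurableEquiv.piEquivPiSubtypeProd (fun _ => ℝ) p).symm ⁻¹' (YY C S e T ⁻¹' A)) := by
    exact ((hmp.symm).measure_preimage_equiv _).symm
  rw [h1, Measure.prod_apply_symm ((MeasurableEquiv.measurable _) hmeas)]
  have hkey : ∀ y : {i // ¬ p i} → ℝ, (Measure.pi fun i : Subtype p => tl (aa C S lam i))
      ((fun x => (x, y)) ⁻¹' ((MeasurableEquiv.piEquivPiSubtypeProd (fun _ => ℝ) p).symm ⁻¹'
        (YY C S e T ⁻¹' A))) ≤ ENNReal.ofReal ((2 * ((N : ℝ) + d)) ^ d) * volume A := by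
    intro y
    have hcl := measurePreserving_piCongrLeft (fun i : Subtype p => tl (aa C S lam i)) φ
    rw [← hcl.measure_preimage_equiv]
    have hmeas2 : MeasurableSet ((MeasurableEquiv.piCongrLeft (fun _ => ℝ) φ) ⁻¹'
        ((fun x => (x, y)) ⁻¹' ((MeasurableEquiv.piEquivPiSubtypeProd (fun _ => ℝ) p).symm ⁻¹'
        (YY C S e T ⁻¹' A)))) := by
      apply (MeasurableEquiv.measurable _)
      apply measurable_prodMk_right
      exact (MeasurableEquiv.measurable _) hmeas
    refine le_trans (pi_le (fun b : Fin d => tl (aa C S lam (φ b)))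
      (fun b => ENNReal.ofReal (1 + |aa C S lam (f b)|))
      (fun b => by
        rw [Ne, ENNReal.ofReal_eq_zero, not_le]; positivity)
      (fun b => ENNReal.ofReal_ne_top) (fun b => by rw [← hφf b]; exact tl_le hTRD _) hmeas2) ?_
    have hset : ((MeasurableEquiv.piCongrLeft (fun _ => ℝ) φ) ⁻¹'
        ((fun x => (x, y)) ⁻¹' ((MeasurableEquiv.piEquivPiSubtypeProd (fun _ => ℝ) p).symm ⁻¹'
        (YY C S e T ⁻¹' A)))) =
        {u : Fin d → ℝ | (T * (Matrix.of fun i b => col C S (f b) i)).mulVec u +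
          (fun i => ∑ i', T i i' * ((∑ j : {i // ¬ p i}, col C S j i' * y j) - e i')) ∈ A} := by
      ext u
      simp only [Set.mem_preimage, Set.mem_ofPred_eq]
      have hz : YY C S e T ((MeasurableEquiv.piEquivPiSubtypeProd (fun _ => ℝ) p).symm
          ((MeasurableEquiv.piCongrLeft (fun _ => ℝ) φ) u, y)) =
          (T * (Matrix.of fun i b => col C S (f b) i)).mulVec u +
          (fun i => ∑ i', T i i' * ((∑ j : {i // ¬ p i}, col C S j i' * y j) - e i')) := by
        funext i
        rw [Pi.add_apply, ← Matrix.mulVec_mulVec]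
        simp only [YY, Matrix.mulVec, dotProduct, Matrix.of_apply]
        rw [← Finset.sum_add_distrib]
        refine Finset.sum_congr rfl (fun i' _ => ?_)
        rw [← Fintype.sum_subtype_add_sum_subtype p]
        have e1 : ∑ j : {j // p j}, col C S j i' *
            ((MeasurableEquiv.piEquivPiSubtypeProd (fun _ => ℝ) p).symm
              ((MeasurableEquiv.piCongrLeft (fun _ => ℝ) φ) u, y)) j =
            ∑ b : Fin d, col C S (f b) i' * u b := by
          rw [← Equiv.sum_comp φ]
          refine Finset.sum_congr rfl (fun b _ => ?_)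
          have e2 : ((MeasurableEquiv.piEquivPiSubtypeProd (fun _ => ℝ) p).symm
              ((MeasurableEquiv.piCongrLeft (fun _ => ℝ) φ) u, y)) (φ b : Subtype p) = u b := by
            have e3 : ((MeasurableEquiv.piEquivPiSubtypeProd (fun _ => ℝ) p).symm
              ((MeasurableEquiv.piCongrLeft (fun _ => ℝ) φ) u, y)) (φ b : Subtype p) =
              (MeasurableEquiv.piCongrLeft (fun _ => ℝ) φ) u (φ b) := by
              change (if h : p (φ b : Subtype p) then _ else _) = _
              rw [dif_pos (φ b).2]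
            rw [e3, MeasurableEquiv.coe_piCongrLeft]
            exact Equiv.piCongrLeft_apply_apply (P := fun _ => ℝ) φ u b
          rw [e2, hφf]
        have e4 : ∑ j : {j // ¬ p j}, col C S j i' *
            ((MeasurableEquiv.piEquivPiSubtypeProd (fun _ => ℝ) p).symm
              ((MeasurableEquiv.piCongrLeft (fun _ => ℝ) φ) u, y)) j =
            ∑ j : {j // ¬ p j}, col C S j i' * y j := by
          refine Finset.sum_congr rfl (fun j _ => ?_)
          have e5 : ((MeasurableEquiv.piEquivPiSubtypeProd (fun _ => ℝ) p).symm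
              ((MeasurableEquiv.piCongrLeft (fun _ => ℝ) φ) u, y)) j = y j := by
            change (if h : p j then _ else _) = _
            rw [dif_neg j.2]
          rw [e5]
        rw [e1, e4]
        ring
      rw [hz]
    rw [hset, vol_aff _ hdet, ← mul_assoc]
    gcongr
    rw [← ENNReal.ofReal_prod_of_nonneg (fun b _ => by positivity),
      ← ENNReal.ofReal_mul (Finset.prod_nonneg (fun b _ => by positivity))]
    exact ENNReal.ofReal_le_ofReal hbd
  calc _ ≤ ∫⁻ _y : {i // ¬ p i} → ℝ, ENNReal.ofReal ((2 * ((N : ℝ) + d)) ^ d) * volume A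
        ∂(Measure.pi fun i : {i // ¬ p i} => tl (aa C S lam i)) := lintegral_mono hkey
    _ = _ := by
        rw [lintegral_const, measure_univ, mul_one]

end Pool.Agent.Helper13.FR
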